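import Mathlib

set_option autoImplicit false
set_option linter.unusedSectionVars false

open MeasureTheory ENNReal Finset

namespace Pool.Agent.Helper392.MF

variable {Y X : Type*} [MeasurableSpace Y] [MeasurableSpace X]

/-- stopped fraction at a stage with unstopped density `U` and already stopped density `G` -/
noncomputable def frac (ν : Measure Y) (l : ℝ≥0∞) (U : Y → X → ℝ≥0∞) (G : X → ℝ≥0∞) (x : X) :
    ℝ≥0∞ :=
  min (∫⁻ y, U y x ∂ν) (l - G x) / ∫⁻ y, U y x ∂ν

/-- the filling scheme: unstopped joint density and total stopped density -/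
noncomputable def seq (ν : Measure Y) (μ : Measure X) (f : Y → ℝ≥0∞) (b : ℕ → Y → X → ℝ≥0∞)
    (p : ℕ → ℕ → Y → X → X → ℝ≥0∞) (l : ℝ≥0∞) : ℕ → (Y → X → ℝ≥0∞) × (X → ℝ≥0∞)
  | 0 => (fun y x => f y * b 0 y x, fun _ => 0)
  | k + 1 =>
    (fun y x' => ∫⁻ x, (1 - frac ν l (seq ν μ f b p l k).1 (seq ν μ f b p l k).2 x) *
        (seq ν μ f b p l k).1 y x * p k (k + 1) y x x' ∂μ,
     fun x => (seq ν μ f b p l k).2 x +
        ∫⁻ y, frac ν l (seq ν μ f b p l k).1 (seq ν μ f b p l k).2 x *
          (seq ν μ f b p l k).1 y x ∂ν)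

lemma frac_le_one (ν : Measure Y) (l : ℝ≥0∞) (U : Y → X → ℝ≥0∞) (G : X → ℝ≥0∞) (x : X) :
    frac ν l U G x ≤ 1 := by
  unfold frac
  exact (ENNReal.div_le_div_right (min_le_left _ _) _).trans ENNReal.div_self_le_one

lemma frac_mul_le (ν : Measure Y) (l : ℝ≥0∞) (U : Y → X → ℝ≥0∞) (G : X → ℝ≥0∞) (x : X) :
    frac ν l U G x * ∫⁻ y, U y x ∂ν ≤ l - G x := by
  unfold frac
  by_cases h0 : ∫⁻ y, U y x ∂ν = 0
  · simp [h0]
  by_cases h1 : ∫⁻ y, U y x ∂ν = ∞
  · simp [h1]
  · rw [ENNReal.div_mul_cancel h0 h1]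
    exact min_le_right _ _

lemma frac_mul_eq (ν : Measure Y) (l : ℝ≥0∞) (U : Y → X → ℝ≥0∞) (G : X → ℝ≥0∞) (x : X)
    (h : ∫⁻ y, U y x ∂ν ≠ ∞) :
    frac ν l U G x * ∫⁻ y, U y x ∂ν = min (∫⁻ y, U y x ∂ν) (l - G x) := by
  unfold frac
  by_cases h0 : ∫⁻ y, U y x ∂ν = 0
  · simp [h0]
  · exact ENNReal.div_mul_cancel h0 h

lemma measurable_frac (ν : Measure Y) [SFinite ν] (l : ℝ≥0∞) (U : Y → X → ℝ≥0∞)
    (G : X → ℝ≥0∞) (hU : Measurable (fun q : Y × X => U q.1 q.2)) (hG : Measurable G) :
    Measurable (frac ν l U G) := by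
  have h1 : Measurable (fun x => ∫⁻ y, U y x ∂ν) := by
    have : Measurable (fun q : X × Y => U q.2 q.1) := hU.comp measurable_swap
    exact this.lintegral_prod_right'
  unfold frac
  exact (h1.min (measurable_const.sub hG)).div h1

section

variable (ν : Measure Y) (μ : Measure X) [SFinite ν] [SFinite μ]
  (f : Y → ℝ≥0∞) (b : ℕ → Y → X → ℝ≥0∞) (p : ℕ → ℕ → Y → X → X → ℝ≥0∞) (l : ℝ≥0∞)

/-- unstopped part -/
noncomputable def U (k : ℕ) : Y → X → ℝ≥0∞ := (seq ν μ f b p l k).1
/-- stopped before stage k -/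
noncomputable def G (k : ℕ) : X → ℝ≥0∞ := (seq ν μ f b p l k).2
/-- stopped fraction -/
noncomputable def s (k : ℕ) : X → ℝ≥0∞ := frac ν l (U ν μ f b p l k) (G ν μ f b p l k)
/-- stopped at stage k -/
noncomputable def st (k : ℕ) (y : Y) (x : X) : ℝ≥0∞ := s ν μ f b p l k x * U ν μ f b p l k y x

lemma U_zero (y : Y) (x : X) : U ν μ f b p l 0 y x = f y * b 0 y x := rfl

lemma U_succ (k : ℕ) (y : Y) (x' : X) : U ν μ f b p l (k + 1) y x' =
    ∫⁻ x, (1 - s ν μ f b p l k x) * U ν μ f b p l k y x * p k (k + 1) y x x' ∂μ := rfl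

lemma G_zero (x : X) : G ν μ f b p l 0 x = 0 := rfl

lemma G_succ (k : ℕ) (x : X) : G ν μ f b p l (k + 1) x =
    G ν μ f b p l k x + ∫⁻ y, st ν μ f b p l k y x ∂ν := rfl

variable (hf : Measurable f) (hb : Measurable (fun q : Y × X => b 0 q.1 q.2))
  (hp : ∀ j k, Measurable (fun q : Y × X × X => p j k q.1 q.2.1 q.2.2))

include hf hb hp in
lemma measurable_UG (k : ℕ) : Measurable (fun q : Y × X => U ν μ f b p l k q.1 q.2) ∧
    Measurable (G ν μ f b p l k) := by
  induction k with
  | zero =>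
    refine ⟨?_, measurable_const⟩
    exact (hf.comp measurable_fst).mul hb
  | succ k ih =>
    obtain ⟨h1, h2⟩ := ih
    have hs : Measurable (s ν μ f b p l k) := measurable_frac ν l _ _ h1 h2
    constructor
    · have h3 : Measurable (fun q : (Y × X) × X => (1 - s ν μ f b p l k q.2) *
          U ν μ f b p l k q.1.1 q.2 * p k (k + 1) q.1.1 q.2 q.1.2) := by
        refine ((measurable_const.sub (hs.comp measurable_snd)).mul
          (h1.comp (measurable_fst.fst.prodMk measurable_snd))).mul ?_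
        exact (hp k (k + 1)).comp
          (measurable_fst.fst.prodMk (measurable_snd.prodMk measurable_fst.snd))
      exact h3.lintegral_prod_right'
    · have h4 : Measurable (fun q : X × Y => s ν μ f b p l k q.1 * U ν μ f b p l k q.2 q.1) :=
        (hs.comp measurable_fst).mul (h1.comp measurable_swap)
      exact h2.add h4.lintegral_prod_right'

include hf hb hp in
lemma measurable_s (k : ℕ) : Measurable (s ν μ f b p l k) :=
  measurable_frac ν l _ _ (measurable_UG ν μ f b p l hf hb hp k).1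
    (measurable_UG ν μ f b p l hf hb hp k).2

include hf hb hp in
lemma measurable_st (k : ℕ) : Measurable (fun q : Y × X => st ν μ f b p l k q.1 q.2) :=
  ((measurable_s ν μ f b p l hf hb hp k).comp measurable_snd).mul
    (measurable_UG ν μ f b p l hf hb hp k).1

lemma s_le_one (k : ℕ) (x : X) : s ν μ f b p l k x ≤ 1 := frac_le_one _ _ _ _ _

lemma st_add (k : ℕ) (y : Y) (x : X) : st ν μ f b p l k y x +
    (1 - s ν μ f b p l k x) * U ν μ f b p l k y x = U ν μ f b p l k y x := by
  unfold st
  rw [← add_mul, add_tsub_cancel_of_le (s_le_one ν μ f b p l k x), one_mul]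

lemma G_eq_sum (k : ℕ) (x : X) : G ν μ f b p l k x =
    ∑ j ∈ range k, ∫⁻ y, st ν μ f b p l j y x ∂ν := by
  induction k with
  | zero => simp [G_zero]
  | succ k ih => rw [G_succ, ih, sum_range_succ]

include hf hb hp in
lemma int_st (k : ℕ) (x : X) : ∫⁻ y, st ν μ f b p l k y x ∂ν =
    s ν μ f b p l k x * ∫⁻ y, U ν μ f b p l k y x ∂ν := by
  unfold st
  rw [lintegral_const_mul]
  exact (measurable_UG ν μ f b p l hf hb hp k).1.comp (measurable_id.prodMk measurable_const)

include hf hb hp in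
lemma G_le (k : ℕ) (x : X) : G ν μ f b p l k x ≤ l := by
  induction k with
  | zero => simp [G_zero]
  | succ k ih =>
    rw [G_succ, int_st ν μ f b p l hf hb hp]
    calc _ ≤ G ν μ f b p l k x + (l - G ν μ f b p l k x) := by
          gcongr
          exact frac_mul_le _ _ _ _ _
      _ = l := add_tsub_cancel_of_le ih

include hf hb hp in
/-- mass conservation -/
lemma mass (hb1 : ∀ y, ∫⁻ x, b 0 y x ∂μ ≤ 1)
    (hp1 : ∀ j y z, ∫⁻ x, p j (j + 1) y z x ∂μ ≤ 1) (k : ℕ) :
    ∑ j ∈ range k, ∫⁻ x, ∫⁻ y, st ν μ f b p l j y x ∂ν ∂μ +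
      ∫⁻ x, ∫⁻ y, U ν μ f b p l k y x ∂ν ∂μ ≤ ∫⁻ y, f y ∂ν := by
  induction k with
  | zero =>
    simp only [range_zero, sum_empty, zero_add, U_zero]
    rw [lintegral_lintegral_swap
      (((hf.comp measurable_snd).mul (hb.comp measurable_swap)).aemeasurable)]
    refine lintegral_mono fun y => ?_
    have hb0 : Measurable (fun x => b 0 y x) := hb.comp (measurable_const.prodMk measurable_id)
    rw [lintegral_const_mul _ hb0]
    exact mul_le_of_le_one_right' (hb1 y)
  | succ k ih =>
    have hU := (measurable_UG ν μ f b p l hf hb hp k).1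
    have hs := measurable_s ν μ f b p l hf hb hp k
    have key : ∫⁻ x, ∫⁻ y, U ν μ f b p l (k + 1) y x ∂ν ∂μ ≤
        ∫⁻ x, ∫⁻ y, (1 - s ν μ f b p l k x) * U ν μ f b p l k y x ∂ν ∂μ := by
      have e1 : ∫⁻ x, ∫⁻ y, U ν μ f b p l (k + 1) y x ∂ν ∂μ =
          ∫⁻ y, ∫⁻ x, U ν μ f b p l (k + 1) y x ∂μ ∂ν :=
        lintegral_lintegral_swap
          ((measurable_UG ν μ f b p l hf hb hp (k + 1)).1.comp measurable_swap).aemeasurable
      have e2 : ∫⁻ x, ∫⁻ y, (1 - s ν μ f b p l k x) * U ν μ f b p l k y x ∂ν ∂μ =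
          ∫⁻ y, ∫⁻ x, (1 - s ν μ f b p l k x) * U ν μ f b p l k y x ∂μ ∂ν :=
        lintegral_lintegral_swap
          ((measurable_const.sub (hs.comp measurable_fst)).mul
            (hU.comp measurable_swap)).aemeasurable
      rw [e1, e2]
      refine lintegral_mono fun y => ?_
      have e3 : ∫⁻ x', U ν μ f b p l (k + 1) y x' ∂μ =
          ∫⁻ x, ∫⁻ x', (1 - s ν μ f b p l k x) * U ν μ f b p l k y x *
            p k (k + 1) y x x' ∂μ ∂μ := by
        simp only [U_succ]
        refine lintegral_lintegral_swap (Measurable.aemeasurable ?_)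
        refine ((measurable_const.sub (hs.comp measurable_snd)).mul
          (hU.comp (measurable_const.prodMk measurable_snd))).mul ?_
        exact (hp k (k + 1)).comp
          (measurable_const.prodMk (measurable_snd.prodMk measurable_fst))
      show ∫⁻ x', U ν μ f b p l (k + 1) y x' ∂μ ≤ _
      rw [e3]
      refine lintegral_mono fun x => ?_
      have e4 : Measurable (fun x' => p k (k + 1) y x x') :=
        (hp k (k + 1)).comp (measurable_const.prodMk (measurable_const.prodMk measurable_id))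
      rw [lintegral_const_mul _ e4]
      exact mul_le_of_le_one_right' (hp1 k y x)
    have key2 : ∫⁻ x, ∫⁻ y, U ν μ f b p l k y x ∂ν ∂μ =
        ∫⁻ x, ∫⁻ y, st ν μ f b p l k y x ∂ν ∂μ +
        ∫⁻ x, ∫⁻ y, (1 - s ν μ f b p l k x) * U ν μ f b p l k y x ∂ν ∂μ := by
      rw [← lintegral_add_left]
      · refine lintegral_congr fun x => ?_
        rw [← lintegral_add_left]
        · refine lintegral_congr fun y => ?_
          exact (st_add ν μ f b p l k y x).symm
        · exact (measurable_st ν μ f b p l hf hb hp k).comp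
            (measurable_id.prodMk measurable_const)
      · exact ((measurable_st ν μ f b p l hf hb hp k).comp measurable_swap).lintegral_prod_right'
    rw [sum_range_succ, add_assoc]
    refine le_trans ?_ ih
    gcongr
    rw [key2]
    gcongr

include hf hb hp in
/-- expansion of the law at stage `k`, intermediate form -/
lemma expand (hbp : ∀ k, 0 < k → ∀ y x, ∫⁻ z, b 0 y z * p 0 k y z x ∂μ = b k y x)
    (hpp : ∀ j k, j + 1 < k → ∀ y z x', ∫⁻ x, p j (j + 1) y z x * p (j + 1) k y x x' ∂μ =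
      p j k y z x') (k m : ℕ) (hm : m < k) (y : Y) (x : X) :
    f y * b k y x = ∑ j ∈ range m, ∫⁻ z, st ν μ f b p l j y z * p j k y z x ∂μ +
      ∫⁻ z, U ν μ f b p l m y z * p m k y z x ∂μ := by
  induction m with
  | zero =>
    simp only [range_zero, sum_empty, zero_add, U_zero]
    rw [← hbp k hm y x, ← lintegral_const_mul]
    · simp only [mul_assoc]
    · refine (hb.comp (measurable_const.prodMk measurable_id)).mul ?_
      exact (hp 0 k).comp (measurable_const.prodMk (measurable_id.prodMk measurable_const))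
  | succ m ih =>
    have hU := (measurable_UG ν μ f b p l hf hb hp m).1
    have hs := measurable_s ν μ f b p l hf hb hp m
    rw [ih (by omega), sum_range_succ, add_assoc]
    congr 1
    have h1 : ∫⁻ z, U ν μ f b p l (m + 1) y z * p (m + 1) k y z x ∂μ =
        ∫⁻ z, (1 - s ν μ f b p l m z) * U ν μ f b p l m y z * p m k y z x ∂μ := by
      simp only [U_succ]
      have e1 : ∀ z, (∫⁻ x, (1 - s ν μ f b p l m x) * U ν μ f b p l m y x *
          p m (m + 1) y x z ∂μ) * p (m + 1) k y z x =
          ∫⁻ w, (1 - s ν μ f b p l m w) * U ν μ f b p l m y w *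
            p m (m + 1) y w z * p (m + 1) k y z x ∂μ := by
        intro z
        rw [lintegral_mul_const]
        refine ((measurable_const.sub hs).mul
          (hU.comp (measurable_const.prodMk measurable_id))).mul ?_
        exact (hp m (m + 1)).comp
          (measurable_const.prodMk (measurable_id.prodMk measurable_const))
      simp only [e1]
      rw [lintegral_lintegral_swap]
      · refine lintegral_congr fun w => ?_
        rw [← hpp m k hm y w x, ← lintegral_const_mul]
        · simp only [mul_assoc]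
        · refine Measurable.mul ?_ ?_
          · exact (hp m (m + 1)).comp
              (measurable_const.prodMk (measurable_const.prodMk measurable_id))
          · exact (hp (m + 1) k).comp
              (measurable_const.prodMk (measurable_id.prodMk measurable_const))
      · refine Measurable.aemeasurable ?_
        refine Measurable.mul (((measurable_const.sub (hs.comp measurable_snd)).mul
          (hU.comp (measurable_const.prodMk measurable_snd))).mul ?_) ?_
        · exact (hp m (m + 1)).comp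
            (measurable_const.prodMk (measurable_snd.prodMk measurable_fst))
        · exact (hp (m + 1) k).comp
            (measurable_const.prodMk (measurable_fst.prodMk measurable_const))
    rw [h1, ← lintegral_add_left]
    · refine lintegral_congr fun z => ?_
      rw [← add_mul, st_add]
    · refine Measurable.mul ?_ ?_
      · exact (measurable_st ν μ f b p l hf hb hp m).comp
          (measurable_const.prodMk measurable_id)
      · exact (hp m k).comp (measurable_const.prodMk (measurable_id.prodMk measurable_const))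

include hf hb hp in
/-- expansion of the law at stage `k` -/
lemma expand_full (hbp : ∀ k, 0 < k → ∀ y x, ∫⁻ z, b 0 y z * p 0 k y z x ∂μ = b k y x)
    (hpp : ∀ j k, j + 1 < k → ∀ y z x', ∫⁻ x, p j (j + 1) y z x * p (j + 1) k y x x' ∂μ =
      p j k y z x') (k : ℕ) (y : Y) (x : X) :
    f y * b k y x = ∑ j ∈ range k, ∫⁻ z, st ν μ f b p l j y z * p j k y z x ∂μ +
      U ν μ f b p l k y x := by
  cases k with
  | zero => simp [U_zero]
  | succ k =>
    rw [expand ν μ f b p l hf hb hp hbp hpp (k + 1) k (Nat.lt_succ_self k) y x,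
      sum_range_succ, add_assoc]
    congr 1
    rw [U_succ, ← lintegral_add_left]
    · refine lintegral_congr fun z => ?_
      rw [← add_mul, st_add]
    · refine Measurable.mul ?_ ?_
      · exact (measurable_st ν μ f b p l hf hb hp k).comp
          (measurable_const.prodMk measurable_id)
      · exact (hp k (k + 1)).comp (measurable_const.prodMk (measurable_id.prodMk measurable_const))

end

/-- **The filling scheme with memory.** -/
theorem filling {E : Type*} [MeasurableSpace E] (μ : Measure E) [SFinite μ] (K : ℕ)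
    (b : ℕ → E → E → ENNReal) (p : ℕ → ℕ → E → E → E → ENNReal)
    (hb : ∀ k, Measurable (fun q : E × E => b k q.1 q.2))
    (hp : ∀ j k, Measurable (fun q : E × E × E => p j k q.1 q.2.1 q.2.2))
    (hbfin : ∀ k, ∃ M : ENNReal, M ≠ ⊤ ∧ ∀ y x, b k y x ≤ M)
    (hb1 : ∀ k y, ∫⁻ x, b k y x ∂μ ≤ 1)
    (hp1 : ∀ j k y z, j < k → ∫⁻ x, p j k y z x ∂μ ≤ 1)
    (hbp : ∀ j k, j < k → ∀ y x, b k y x = ∫⁻ z, b j y z * p j k y z x ∂μ)
    (hck : ∀ i j k, i < j → j < k → ∀ y z x,
      p i k y z x = ∫⁻ w, p i j y z w * p j k y w x ∂μ)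
    (f : E → ENNReal) (hf : Measurable f) (hfi : ∫⁻ y, f y ∂μ ≠ ⊤)
    (lam : ENNReal) (_hl0 : lam ≠ 0) (_hl : lam ≠ ⊤) :
    ∃ P : ℕ → E → E → ENNReal, (∀ j, Measurable (fun q : E × E => P j q.1 q.2)) ∧
      (∀ j y z, P j y z ≤ f y * b j y z) ∧
      (∀ z, ∑ j ∈ Finset.range K, ∫⁻ y, P j y z ∂μ ≤ lam) ∧
      (∑ j ∈ Finset.range K, ∫⁻ y, ∫⁻ z, P j y z ∂μ ∂μ ≤ ∫⁻ y, f y ∂μ) ∧
      ∃ D : Set E, MeasurableSet D ∧ lam * μ D ≤ ∫⁻ y, f y ∂μ ∧
        ∀ x, x ∉ D → ∀ k, k < K → ∫⁻ y, f y * b k y x ∂μ ≤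
          lam + ∑ j ∈ Finset.range k, ∫⁻ y, ∫⁻ z, P j y z * p j k y z x ∂μ ∂μ := by
  have hbp' : ∀ k, 0 < k → ∀ y x, ∫⁻ z, b 0 y z * p 0 k y z x ∂μ = b k y x :=
    fun k hk y x => (hbp 0 k hk y x).symm
  have hpp' : ∀ j k, j + 1 < k → ∀ y z x', ∫⁻ x, p j (j + 1) y z x * p (j + 1) k y x x' ∂μ =
      p j k y z x' := fun j k hk y z x' => (hck j (j + 1) k (Nat.lt_succ_self j) hk y z x').symm
  have hGm : ∀ k, Measurable (G μ μ f b p lam k) := fun k =>
    (measurable_UG μ μ f b p lam hf (hb 0) hp k).2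
  have hstm := measurable_st μ μ f b p lam hf (hb 0) hp
  have hmass := mass μ μ f b p lam hf (hb 0) hp (hb1 0)
    (fun j y z => hp1 j (j + 1) y z (Nat.lt_succ_self j))
  have hexp := expand_full μ μ f b p lam hf (hb 0) hp hbp' hpp'
  have hm1 : ∀ j, Measurable (fun x => ∫⁻ y, st μ μ f b p lam j y x ∂μ) := fun j =>
    ((hstm j).comp measurable_swap).lintegral_prod_right'
  have htot : ∫⁻ x, G μ μ f b p lam K x ∂μ ≤ ∫⁻ y, f y ∂μ := by
    simp only [G_eq_sum]
    rw [lintegral_finsetSum _ fun j _ => hm1 j]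
    exact le_trans le_self_add (hmass K)
  refine ⟨st μ μ f b p lam, hstm, ?_, ?_, ?_, {x | lam ≤ G μ μ f b p lam K x},
    measurableSet_le measurable_const (hGm K), ?_, ?_⟩
  · intro j y x
    rw [hexp j y x]
    refine le_trans ?_ le_add_self
    rw [← st_add μ μ f b p lam j y x]
    exact le_self_add
  · intro x
    rw [← G_eq_sum]
    exact G_le μ μ f b p lam hf (hb 0) hp K x
  · refine le_trans (le_of_eq ?_) (le_trans le_self_add (hmass K))
    refine Finset.sum_congr rfl fun j _ => ?_
    exact lintegral_lintegral_swap (hstm j).aemeasurable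
  · exact (mul_meas_ge_le_lintegral (hGm K) lam).trans htot
  · intro x hxD k hk
    have hfin : ∫⁻ y, U μ μ f b p lam k y x ∂μ ≠ ∞ := by
      obtain ⟨M, hM, hMb⟩ := hbfin k
      have h1 : ∫⁻ y, U μ μ f b p lam k y x ∂μ ≤ ∫⁻ y, f y * M ∂μ := by
        refine lintegral_mono fun y => ?_
        have h2 : U μ μ f b p lam k y x ≤ f y * b k y x := by
          rw [hexp k y x]
          exact le_add_self
        exact h2.trans (mul_le_mul_right (hMb y x) _)
      rw [lintegral_mul_const _ hf] at h1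
      exact ne_top_of_le_ne_top (ENNReal.mul_ne_top hfi hM) h1
    have h3 : ∫⁻ y, f y * b k y x ∂μ =
        (∑ j ∈ range k, ∫⁻ y, ∫⁻ z, st μ μ f b p lam j y z * p j k y z x ∂μ ∂μ) +
        ∫⁻ y, U μ μ f b p lam k y x ∂μ := by
      have : ∀ y, f y * b k y x = ∑ j ∈ range k, ∫⁻ z, st μ μ f b p lam j y z * p j k y z x ∂μ +
          U μ μ f b p lam k y x := fun y => hexp k y x
      simp only [this]
      have hmm : ∀ j, Measurable (fun y => ∫⁻ z, st μ μ f b p lam j y z * p j k y z x ∂μ) := by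
        intro j
        have : Measurable (fun q : E × E => st μ μ f b p lam j q.1 q.2 * p j k q.1 q.2 x) :=
          (hstm j).mul ((hp j k).comp
            (measurable_fst.prodMk (measurable_snd.prodMk measurable_const)))
        exact this.lintegral_prod_right'
      rw [lintegral_add_left (Finset.measurable_sum _ fun j _ => hmm j),
        lintegral_finsetSum _ fun j _ => hmm j]
    rw [h3, add_comm]
    gcongr
    -- the unstopped density is at most lam off D
    have h4 : ∫⁻ y, st μ μ f b p lam k y x ∂μ =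
        min (∫⁻ y, U μ μ f b p lam k y x ∂μ) (lam - G μ μ f b p lam k x) := by
      rw [int_st μ μ f b p lam hf (hb 0) hp]
      exact frac_mul_eq _ _ _ _ _ hfin
    by_contra hcon
    rw [not_le] at hcon
    apply hxD
    show lam ≤ G μ μ f b p lam K x
    have h5 : G μ μ f b p lam (k + 1) x ≤ G μ μ f b p lam K x := by
      rw [G_eq_sum, G_eq_sum]
      exact Finset.sum_le_sum_of_subset (Finset.range_subset_range.2 hk)
    refine le_trans ?_ h5
    rw [G_succ, h4, min_eq_right (le_trans tsub_le_self hcon.le)]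
    exact le_add_tsub

end Pool.Agent.Helper392.MF
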