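import Pool.Agent.Helper160.MF.Defs

set_option autoImplicit false
open MeasureTheory Set Metric

namespace Pool.Agent.Helper160.MF

lemma measurable_bs (d : ℕ) (R : ℝ) (hs : MeasurableSet (shell d R)) : Measurable (bs d R) :=
  measurable_const.indicator hs

lemma measurable_tr (d : ℕ) (r R : ℝ) (hr : MeasurableSet (shell d r))
    (hR : MeasurableSet (shell d R)) :
    Measurable (fun q : Eu d × Eu d × Eu d => tr d r R q.1 q.2.1 q.2.2) := by
  have m1 : Measurable (fun q : Eu d × Eu d × Eu d => q.2.1 - q.1) :=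
    measurable_snd.fst.sub measurable_fst
  have m2 : Measurable (fun q : Eu d × Eu d × Eu d => q.2.2 - q.1) :=
    measurable_snd.snd.sub measurable_fst
  have h2 : Measurable (fun q : Eu d × Eu d × Eu d =>
      (shell d r).indicator (fun _ => (1 : ENNReal)) (q.2.1 - q.1)) :=
    Measurable.comp (g := fun w : Eu d => (shell d r).indicator (fun _ => (1 : ENNReal)) w)
      (measurable_const.indicator hr) m1
  have h3 : Measurable (fun q : Eu d × Eu d × Eu d => bs d R (q.2.2 - q.1)) :=
    (measurable_bs d R hR).comp m2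
  have h4 : Measurable (fun q : Eu d × Eu d × Eu d => Pk d (q.2.2 - q.1) (q.2.1 - q.1)) := by
    unfold Pk
    have m3 := m1.norm
    have m4 := m2.norm
    have m5 := (m2.sub m1).norm
    exact ((m4.pow_const d).mul ((m4.pow_const 2).sub (m3.pow_const 2))).div
      ((m4.pow_const 2).mul (m5.pow_const d))
  have h5 : Measurable (fun q : Eu d × Eu d × Eu d =>
      ENNReal.ofReal (Pk d (q.2.2 - q.1) (q.2.1 - q.1))) := ENNReal.measurable_ofReal.comp h4
  unfold tr
  exact h2.mul (h3.mul h5)

lemma markov_sq {E : Type*} [MeasurableSpace E] (μ : Measure E) (w : E → ENNReal)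
    (hw : Measurable w) (c : ENNReal) : c ^ 2 * μ {x | c < w x} ≤ ∫⁻ x, w x ^ 2 ∂μ := by
  refine le_trans ?_ (mul_meas_ge_le_lintegral (hw.pow_const 2) (c ^ 2))
  have : {x | c < w x} ⊆ {x | c ^ 2 ≤ w x ^ 2} := fun x hx => by
    have hx' : c < w x := hx
    exact pow_le_pow_left' hx'.le 2
  gcongr

end Pool.Agent.Helper160.MF
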