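import Pool.Agent.Helper160.MF.Defs
import Pool.Agent.Helper392.MF.Fill
import Pool.Agent.Helper392.MF.Meas

set_option autoImplicit false
open MeasureTheory Set Metric

namespace Pool.Agent.Helper160.MF

open Pool.Agent.Helper392.MF (filling)

theorem core_of
    (measurableSet_shell : ∀ (d : ℕ) (R : ℝ), MeasurableSet (shell d R))
    (volume_shell : ∀ (d : ℕ) (_ : 1 ≤ d) (R : ℝ) (_ : 0 < R),
      volume (shell d R) = volume (ball (0 : Eu d) R) / 2)
    (lintegral_bs : ∀ (d : ℕ) (_ : 1 ≤ d) (R : ℝ) (_ : 0 < R) (y : Eu d),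
      ∫⁻ x, bs d R (x - y) = 1)
    (tr_mass : ∀ (d : ℕ) (_ : 1 ≤ d) (r R : ℝ) (_ : 0 < r) (_ : r ≤ R / 64) (y z : Eu d),
      ∫⁻ x, tr d r R y z x ≤ 1)
    (tr_start : ∀ (d : ℕ) (_ : 1 ≤ d) (r R : ℝ) (_ : 0 < r) (_ : r ≤ R / 64) (y x : Eu d),
      bs d R (x - y) = ∫⁻ z, bs d r (z - y) * tr d r R y z x)
    (tr_ck : ∀ (d : ℕ) (_ : 1 ≤ d) (r s R : ℝ) (_ : 0 < r) (_ : r ≤ s / 64) (_ : s ≤ R / 64)
      (y z x : Eu d), tr d r R y z x = ∫⁻ w, tr d r s y z w * tr d s R y w x)
    (far_bound : ∀ (d : ℕ) (_ : 16 ≤ d) (r R : ℝ) (_ : 0 < r) (_ : r ≤ R / d) (x y z : Eu d),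
      tr d r R y z x ≤ 32 * (volume (ball (0 : Eu d) R))⁻¹ *
        (ball (0 : Eu d) (R * (1 + 1 / d))).indicator (fun _ => (1 : ENNReal)) (x - z))
    (far_mass : ∀ (d : ℕ) (_ : 16 ≤ d) (R : ℝ) (_ : 0 < R) (x : Eu d),
      ∫⁻ z, 32 * (volume (ball (0 : Eu d) R))⁻¹ *
        (ball (0 : Eu d) (R * (1 + 1 / d))).indicator (fun _ => (1 : ENNReal)) (x - z) ≤ 100)
    (lintegral_ga : ∀ (d : ℕ) (t : ℝ) (_ : 0 < t) (x : Eu d),
      ∫⁻ z, ENNReal.ofReal (ga d t (x - z)) = 1)
    (ML_scaled : ∃ C : ℝ, 0 < C ∧ ∀ d : ℕ, 16 ≤ d → ∀ ε : ℝ, 0 < ε → ε ≤ 1 / 64 →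
      ∀ R : ℝ, 0 < R → ∀ (lam : ENNReal), lam ≠ ⊤ → ∀ P : Eu d → Eu d → ENNReal,
      Measurable (fun q : Eu d × Eu d => P q.1 q.2) →
      (∀ y z, P y z ≠ 0 → z - y ∈ shell d (ε * R)) → (∀ y z, P y z ≠ ⊤) →
      (∀ z, ∫⁻ y, P y z ≤ lam) → (∫⁻ y, ∫⁻ z, P y z ≠ ⊤) →
      ∃ w : Eu d → ENNReal, Measurable w ∧
        (∀ x, ∫⁻ y, ∫⁻ z, P y z * tr d (ε * R) R y z x ≤
          ENNReal.ofReal C *
            (∫⁻ z, (∫⁻ y, P y z) * ENNReal.ofReal (ga d (R ^ 2 / d) (x - z))) + w x) ∧
        ∫⁻ x, w x ^ 2 ≤ ENNReal.ofReal (C * (ε + 1 / d)) * lam * ∫⁻ y, ∫⁻ z, P y z) :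
    ∃ C : ℝ, 0 < C ∧ ∀ d : ℕ, 16 ≤ d → ∀ R : ℝ, 0 < R → ∀ K : ℕ,
    ∀ f : Eu d → ENNReal, Measurable f → (∀ y, f y ≠ ⊤) → ∫⁻ y, f y ≠ ⊤ →
    ∀ lam : ENNReal, lam ≠ 0 → lam ≠ ⊤ →
    lam * volume {x : Eu d | ∃ k, k < K ∧ ENNReal.ofReal C * lam < ∫⁻ y, f y * bs d (R * 64 ^ k) (x - y)} ≤
      ENNReal.ofReal C * ∫⁻ y, f y := by
  classical
  obtain ⟨C, hC0, hC⟩ := ML_scaled
  refine ⟨102 + C, by linarith, ?_⟩
  intro d hd R hR K f hf hff hfi lam hl0 hl
  have hd1 : 1 ≤ d := by omega
  have hd0 : (0 : ℝ) < d := by positivity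
  set Rk : ℕ → ℝ := fun k => R * 64 ^ k with hRk
  have hRk0 : ∀ k, 0 < Rk k := fun k => by positivity
  have hsep : ∀ j k, j < k → Rk j ≤ Rk k / 64 := by
    intro j k hjk
    rw [le_div_iff₀ (by norm_num)]
    have : (64 : ℝ) ^ j * 64 ≤ 64 ^ k := by
      rw [← pow_succ]; exact pow_le_pow_right₀ (by norm_num) hjk
    simp only [hRk]
    nlinarith
  have hbfin : ∀ k, ∃ M : ENNReal, M ≠ ⊤ ∧ ∀ y x : Eu d, bs d (Rk k) (x - y) ≤ M := by
    intro k
    refine ⟨(volume (shell d (Rk k)))⁻¹, ?_, fun y x => ?_⟩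
    · rw [volume_shell d hd1 _ (hRk0 k)]
      refine ENNReal.inv_ne_top.2 ?_
      rw [Ne, ENNReal.div_eq_zero_iff]
      push Not
      exact ⟨(measure_ball_pos volume _ (hRk0 k)).ne', by norm_num⟩
    · unfold bs
      exact Set.indicator_le_self' (fun _ _ => bot_le) _ |>.trans le_rfl
  obtain ⟨P, hPm, hPb, hPl, hPi, D, hDm, hD, hx⟩ := filling (volume : Measure (Eu d)) K
    (fun k y x => bs d (Rk k) (x - y)) (fun j k y z x => tr d (Rk j) (Rk k) y z x)
    (fun k => (measurable_bs d _ (measurableSet_shell d _)).comp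
      (measurable_snd.sub measurable_fst))
    (fun j k => measurable_tr d _ _ (measurableSet_shell d _) (measurableSet_shell d _))
    hbfin (fun k y => (lintegral_bs d hd1 _ (hRk0 k) y).le)
    (fun j k y z hjk => tr_mass d hd1 _ _ (hRk0 j) (hsep j k hjk) y z)
    (fun j k hjk y x => tr_start d hd1 _ _ (hRk0 j) (hsep j k hjk) y x)
    (fun i j k hij hjk y z x => tr_ck d hd1 _ _ _ (hRk0 i) (hsep i j hij) (hsep j k hjk) y z x)
    f hf hfi lam hl0 hl
  -- the total mass
  set m : ℕ → ENNReal := fun j => ∫⁻ y, ∫⁻ z, P j y z with hm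
  have hmj : ∀ j, j < K → m j ≠ ⊤ := by
    intro j hj
    refine ne_top_of_le_ne_top hfi (le_trans ?_ hPi)
    exact Finset.single_le_sum (f := m) (fun _ _ => bot_le) (Finset.mem_range.2 hj)
  -- error functions
  have hw : ∀ j k, ∃ w : Eu d → ENNReal, Measurable w ∧ (j < k → k < K → (64 : ℝ) ^ (k - j) < d →
      (∀ x, ∫⁻ y, ∫⁻ z, P j y z * tr d (Rk j) (Rk k) y z x ≤
        ENNReal.ofReal C *
          (∫⁻ z, (∫⁻ y, P j y z) * ENNReal.ofReal (ga d (Rk k ^ 2 / d) (x - z))) + w x) ∧
      ∫⁻ x, w x ^ 2 ≤ ENNReal.ofReal (2 * C * (1 / 64) ^ (k - j)) * lam * m j) := by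
    intro j k
    by_cases h : j < k ∧ k < K ∧ (64 : ℝ) ^ (k - j) < d
    · obtain ⟨h1, h2, h3⟩ := h
      have e1 : (1 / 64 : ℝ) ^ (k - j) * Rk k = Rk j := by
        have : (64 : ℝ) ^ k = 64 ^ (k - j) * 64 ^ j := by
          rw [← pow_add]; congr 1; omega
        simp only [hRk, this]
        rw [one_div, inv_pow]
        field_simp
      obtain ⟨w, hw1, hw2, hw3⟩ := hC d hd ((1 / 64 : ℝ) ^ (k - j)) (by positivity)
        (by
          calc (1 / 64 : ℝ) ^ (k - j) ≤ (1 / 64) ^ 1 :=
                pow_le_pow_of_le_one (by norm_num) (by norm_num) (by omega)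
            _ = 1 / 64 := by norm_num)
        (Rk k) (hRk0 k) lam hl (P j) (hPm j)
        (by
          intro y z hyz
          rw [e1]
          by_contra hcon
          apply hyz
          have := hPb j y z
          simp only [bs] at this
          rw [Set.indicator_of_notMem hcon, mul_zero] at this
          exact le_antisymm this bot_le)
        (by
          intro y z
          refine ne_top_of_le_ne_top ?_ (hPb j y z)
          obtain ⟨M, hM, hMb⟩ := hbfin j
          exact ENNReal.mul_ne_top (hff y) (ne_top_of_le_ne_top hM (hMb y z)))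
        (by
          intro z
          refine le_trans ?_ (hPl z)
          exact Finset.single_le_sum (f := fun j => ∫⁻ y, P j y z) (fun _ _ => bot_le)
            (Finset.mem_range.2 (h1.trans h2)))
        (hmj j (h1.trans h2))
      rw [e1] at hw2
      refine ⟨w, hw1, fun _ _ _ => ⟨hw2, hw3.trans ?_⟩⟩
      refine mul_le_mul_left (mul_le_mul_left (ENNReal.ofReal_le_ofReal ?_) _) _
      have : (1 : ℝ) / d ≤ (1 / 64) ^ (k - j) := by
        rw [one_div, one_div, inv_pow]
        exact inv_anti₀ (by positivity) h3.le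
      nlinarith
    · refine ⟨0, measurable_zero, fun h1 h2 h3 => absurd ⟨h1, h2, h3⟩ h⟩
  choose w hwm hw using hw
  -- the bad set
  set Bad : Set (Eu d) := ⋃ j ∈ Finset.range K, ⋃ k ∈ Finset.range K,
    {x | j < k ∧ (64 : ℝ) ^ (k - j) < d ∧ lam * (1 / 2) ^ (k - j) < w j k x} with hBad
  have hone : ∀ j k, j < k → k < K → lam * volume {x | j < k ∧ (64 : ℝ) ^ (k - j) < d ∧
      lam * (1 / 2) ^ (k - j) < w j k x} ≤ ENNReal.ofReal (2 * C * (1 / 16) ^ (k - j)) * m j := by
    intro j k h1 h2
    by_cases h3 : (64 : ℝ) ^ (k - j) < d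
    · have h4 := (hw j k h1 h2 h3).2
      have h5 := markov_sq volume (w j k) (hwm j k) (lam * (1 / 2) ^ (k - j))
      have h6 : volume {x | j < k ∧ (64 : ℝ) ^ (k - j) < d ∧
          lam * (1 / 2) ^ (k - j) < w j k x} ≤ volume {x | lam * (1 / 2) ^ (k - j) < w j k x} :=
        measure_mono fun x hx => hx.2.2
      have h7 := h5.trans h4
      -- lam^2 * (1/4)^(k-j) * V ≤ ofReal(2C (1/64)^(k-j)) * lam * m j
      have h8 : lam * ((1 / 4 : ENNReal) ^ (k - j) *
          (lam * volume {x | lam * (1 / 2) ^ (k - j) < w j k x})) ≤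
          lam * (ENNReal.ofReal (2 * C * (1 / 64) ^ (k - j)) * m j) := by
        calc _ = (lam * (1 / 2) ^ (k - j)) ^ 2 *
              volume {x | lam * (1 / 2) ^ (k - j) < w j k x} := by
              have : ((1 : ENNReal) / 2) ^ (k - j) * (1 / 2) ^ (k - j) = (1 / 4) ^ (k - j) := by
                rw [← mul_pow]
                congr 1
                rw [one_div, one_div, ← ENNReal.mul_inv (by norm_num) (by norm_num)]
                norm_num
              rw [← this]
              ring
          _ ≤ _ := h7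
          _ = _ := by ring
      have h9 : (1 / 4 : ENNReal) ^ (k - j) *
          (lam * volume {x | lam * (1 / 2) ^ (k - j) < w j k x}) ≤
          ENNReal.ofReal (2 * C * (1 / 64) ^ (k - j)) * m j :=
        (ENNReal.mul_le_mul_iff_right hl0 hl).1 h8
      have h10 : (4 : ENNReal) ^ (k - j) * (1 / 4) ^ (k - j) = 1 := by
        rw [← mul_pow, one_div, ENNReal.mul_inv_cancel (by norm_num) (by norm_num), one_pow]
      calc _ ≤ lam * volume {x | lam * (1 / 2) ^ (k - j) < w j k x} := by gcongr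
        _ = 4 ^ (k - j) * ((1 / 4 : ENNReal) ^ (k - j) *
          (lam * volume {x | lam * (1 / 2) ^ (k - j) < w j k x})) := by
            rw [← mul_assoc, h10, one_mul]
        _ ≤ 4 ^ (k - j) * (ENNReal.ofReal (2 * C * (1 / 64) ^ (k - j)) * m j) := by gcongr
        _ = ENNReal.ofReal (2 * C * (1 / 16) ^ (k - j)) * m j := by
            rw [← mul_assoc]
            congr 1
            have : (4 : ENNReal) ^ (k - j) = ENNReal.ofReal (4 ^ (k - j)) := by
              rw [ENNReal.ofReal_pow (by norm_num)]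
              norm_num
            rw [this, ← ENNReal.ofReal_mul (by positivity)]
            congr 1
            have : (1 / 16 : ℝ) ^ (k - j) = 4 ^ (k - j) * (1 / 64) ^ (k - j) := by
              rw [← mul_pow]; norm_num
            rw [this]; ring
    · have : {x | j < k ∧ (64 : ℝ) ^ (k - j) < d ∧
          lam * (1 / 2) ^ (k - j) < w j k x} = ∅ := by
        ext x
        simp [h3]
      rw [this]
      simp
  have hgeo : ∀ (q : ℝ) (_ : 0 ≤ q) (_ : q ≤ 1 / 2) (j : ℕ),
      ∑ k ∈ (Finset.range K).filter (fun k => j < k), q ^ (k - j) ≤ 2 * q := by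
    intro q hq0 hq j
    have h1 : ∀ k ∈ (Finset.range K).filter (fun k => j < k), q ^ (k - j) =
        q * q ^ (k - j - 1) := by
      intro k hk
      rw [← pow_succ']
      congr 1
      have := (Finset.mem_filter.1 hk).2
      omega
    rw [Finset.sum_congr rfl h1, ← Finset.mul_sum]
    have h2 : ∑ k ∈ (Finset.range K).filter (fun k => j < k), q ^ (k - j - 1) ≤
        ∑ i ∈ Finset.range K, q ^ i := by
      have h3 : ∑ k ∈ (Finset.range K).filter (fun k => j < k), q ^ (k - j - 1) =
          ∑ i ∈ ((Finset.range K).filter (fun k => j < k)).image (fun k => k - j - 1), q ^ i := by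
        rw [Finset.sum_image]
        intro a ha b hb hab
        have := (Finset.mem_filter.1 ha).2
        have := (Finset.mem_filter.1 hb).2
        simp only at hab
        omega
      rw [h3]
      refine Finset.sum_le_sum_of_subset_of_nonneg ?_ (fun _ _ _ => by positivity)
      intro i hi
      obtain ⟨k, hk, rfl⟩ := Finset.mem_image.1 hi
      have := Finset.mem_range.1 (Finset.mem_filter.1 hk).1
      exact Finset.mem_range.2 (by omega)
    have h4 : ∑ i ∈ Finset.range K, q ^ i ≤ 2 := by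
      have h5 : ∑ i ∈ Finset.range K, q ^ i ≤ ∑ i ∈ Finset.range K, (1 / 2 : ℝ) ^ i :=
        Finset.sum_le_sum fun i _ => pow_le_pow_left₀ hq0 hq i
      refine h5.trans ?_
      have := summable_geometric_two
      calc _ ≤ ∑' i : ℕ, (1 / 2 : ℝ) ^ i := this.sum_le_tsum _ (fun _ _ => by positivity)
        _ = 2 := tsum_geometric_two
    nlinarith
  have hBadle : lam * volume Bad ≤ ENNReal.ofReal (C / 4) * ∫⁻ y, f y := by
    have h1 : volume Bad ≤ ∑ j ∈ Finset.range K, ∑ k ∈ Finset.range K,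
        volume {x | j < k ∧ (64 : ℝ) ^ (k - j) < d ∧ lam * (1 / 2) ^ (k - j) < w j k x} := by
      refine (measure_biUnion_finset_le _ _).trans ?_
      exact Finset.sum_le_sum fun j _ => measure_biUnion_finset_le _ _
    calc lam * volume Bad ≤ lam * ∑ j ∈ Finset.range K, ∑ k ∈ Finset.range K,
        volume {x | j < k ∧ (64 : ℝ) ^ (k - j) < d ∧ lam * (1 / 2) ^ (k - j) < w j k x} := by
          gcongr
      _ = ∑ j ∈ Finset.range K, ∑ k ∈ Finset.range K,
        lam * volume {x | j < k ∧ (64 : ℝ) ^ (k - j) < d ∧ lam * (1 / 2) ^ (k - j) < w j k x} := by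
          rw [Finset.mul_sum]
          exact Finset.sum_congr rfl fun j _ => Finset.mul_sum _ _ _
      _ ≤ ∑ j ∈ Finset.range K, ∑ k ∈ (Finset.range K).filter (fun k => j < k),
          ENNReal.ofReal (2 * C * (1 / 16) ^ (k - j)) * m j := by
          refine Finset.sum_le_sum fun j _ => ?_
          rw [Finset.sum_filter]
          refine Finset.sum_le_sum fun k hk => ?_
          by_cases hjk : j < k
          · rw [if_pos hjk]
            exact hone j k hjk (Finset.mem_range.1 hk)
          · rw [if_neg hjk]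
            have : {x | j < k ∧ (64 : ℝ) ^ (k - j) < d ∧
                lam * (1 / 2) ^ (k - j) < w j k x} = ∅ := by
              ext x
              simp [hjk]
            rw [this]
            simp
      _ ≤ ∑ j ∈ Finset.range K, ENNReal.ofReal (C / 4) * m j := by
          refine Finset.sum_le_sum fun j _ => ?_
          rw [← Finset.sum_mul, ← ENNReal.ofReal_sum_of_nonneg (fun _ _ => by positivity)]
          gcongr
          rw [← Finset.mul_sum]
          have := hgeo (1 / 16) (by norm_num) (by norm_num) j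
          nlinarith
      _ = ENNReal.ofReal (C / 4) * ∑ j ∈ Finset.range K, m j := by rw [Finset.mul_sum]
      _ ≤ _ := by gcongr
  -- the good points
  have hgood : {x : Eu d | ∃ k, k < K ∧ ENNReal.ofReal (102 + C) * lam <
      ∫⁻ y, f y * bs d (R * 64 ^ k) (x - y)} ⊆ D ∪ Bad := by
    intro x hxx
    by_contra hcon
    rw [mem_union, not_or] at hcon
    obtain ⟨hxD, hxB⟩ := hcon
    obtain ⟨k, hk, hlt⟩ := hxx
    have h1 := hx x hxD k hk
    refine absurd (hlt.trans_le h1) (not_lt.2 ?_)
    have hPlk : ∀ z, ∑ j ∈ Finset.range k, ∫⁻ y, P j y z ≤ lam := fun z =>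
      le_trans (Finset.sum_le_sum_of_subset (Finset.range_subset_range.2 hk.le)) (hPl z)
    have hmz : ∀ j, Measurable (fun z => ∫⁻ y, P j y z) := fun j =>
      ((hPm j).comp measurable_swap).lintegral_prod_right'
    set kap : Eu d → ENNReal := fun z => 32 * (volume (ball (0 : Eu d) (Rk k)))⁻¹ *
      (ball (0 : Eu d) (Rk k * (1 + 1 / d))).indicator (fun _ => (1 : ENNReal)) (x - z) with hkap
    have hkapm : Measurable kap :=
      measurable_const.mul ((measurable_const.indicator measurableSet_ball).comp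
        (measurable_const.sub measurable_id))
    set gam : Eu d → ENNReal := fun z => ENNReal.ofReal (ga d (Rk k ^ 2 / d) (x - z)) with hgam
    have hgamm : Measurable gam := by
      simp only [hgam, ga]
      fun_prop
    -- each term
    have hterm : ∀ j ∈ Finset.range k, ∫⁻ y, ∫⁻ z, P j y z * tr d (Rk j) (Rk k) y z x ≤
        (∫⁻ z, (∫⁻ y, P j y z) * kap z) +
          (ENNReal.ofReal C * ∫⁻ z, (∫⁻ y, P j y z) * gam z) + lam * (1 / 2) ^ (k - j) := by
      intro j hj
      have hjk := Finset.mem_range.1 hj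
      by_cases h3 : (64 : ℝ) ^ (k - j) < d
      · have h4 := (hw j k hjk hk h3).1 x
        have h5 : w j k x ≤ lam * (1 / 2) ^ (k - j) := by
          by_contra hc
          rw [not_le] at hc
          apply hxB
          simp only [hBad, mem_iUnion]
          exact ⟨j, Finset.mem_range.2 (hjk.trans hk), k, Finset.mem_range.2 hk, hjk, h3, hc⟩
        refine h4.trans ?_
        refine add_le_add ?_ h5
        exact le_add_self
      · rw [not_lt] at h3
        have h6 : Rk j ≤ Rk k / d := by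
          have e1 : (64 : ℝ) ^ k = 64 ^ (k - j) * 64 ^ j := by
            rw [← pow_add]; congr 1; omega
          rw [le_div_iff₀ hd0]
          simp only [hRk, e1]
          have : 0 < R * 64 ^ j := by positivity
          nlinarith
        have h7 : ∫⁻ y, ∫⁻ z, P j y z * tr d (Rk j) (Rk k) y z x ≤
            ∫⁻ y, ∫⁻ z, P j y z * kap z := by
          refine lintegral_mono fun y => lintegral_mono fun z => ?_
          exact mul_le_mul_right (far_bound d hd _ _ (hRk0 j) h6 x y z) _
        have h8 : ∫⁻ y, ∫⁻ z, P j y z * kap z = ∫⁻ z, (∫⁻ y, P j y z) * kap z := by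
          rw [lintegral_lintegral_swap ((hPm j).mul (hkapm.comp measurable_snd)).aemeasurable]
          refine lintegral_congr fun z => ?_
          rw [lintegral_mul_const]
          exact (hPm j).comp (measurable_id.prodMk measurable_const)
        rw [h8] at h7
        refine h7.trans ?_
        rw [add_assoc]
        exact le_self_add
    have hA : ∑ j ∈ Finset.range k, (∫⁻ z, (∫⁻ y, P j y z) * kap z) ≤ lam * 100 := by
      have hmk : ∀ j ∈ Finset.range k, Measurable (fun z => (∫⁻ y, P j y z) * kap z) :=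
        fun j _ => (hmz j).mul hkapm
      rw [← lintegral_finsetSum _ hmk]
      calc _ ≤ ∫⁻ z, lam * kap z := by
            refine lintegral_mono fun z => ?_
            rw [← Finset.sum_mul]
            exact mul_le_mul_left (hPlk z) _
        _ = lam * ∫⁻ z, kap z := lintegral_const_mul _ hkapm
        _ ≤ lam * 100 := by
            gcongr
            exact far_mass d hd _ (hRk0 k) x
    have hB : ∑ j ∈ Finset.range k, ENNReal.ofReal C * (∫⁻ z, (∫⁻ y, P j y z) * gam z) ≤
        ENNReal.ofReal C * lam := by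
      have hmk : ∀ j ∈ Finset.range k, Measurable (fun z => (∫⁻ y, P j y z) * gam z) :=
        fun j _ => (hmz j).mul hgamm
      rw [← Finset.mul_sum, ← lintegral_finsetSum _ hmk]
      gcongr
      calc _ ≤ ∫⁻ z, lam * gam z := by
            refine lintegral_mono fun z => ?_
            rw [← Finset.sum_mul]
            exact mul_le_mul_left (hPlk z) _
        _ = lam * ∫⁻ z, gam z := lintegral_const_mul _ hgamm
        _ = lam := by
            rw [lintegral_ga d _ (by have := hRk0 k; positivity) x, mul_one]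
    have hG : ∑ j ∈ Finset.range k, lam * (1 / 2 : ENNReal) ^ (k - j) ≤ lam * 1 := by
      rw [← Finset.mul_sum]
      gcongr
      have h9 : ∑ j ∈ Finset.range k, (1 / 2 : ENNReal) ^ (k - j) =
          ENNReal.ofReal (∑ j ∈ Finset.range k, (1 / 2 : ℝ) ^ (k - j)) := by
        rw [ENNReal.ofReal_sum_of_nonneg (fun _ _ => by positivity)]
        refine Finset.sum_congr rfl fun j _ => ?_
        rw [ENNReal.ofReal_pow (by norm_num), ENNReal.ofReal_div_of_pos (by norm_num)]
        norm_num
      rw [h9]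
      refine ENNReal.ofReal_le_one.2 ?_
      have h10 : ∑ j ∈ Finset.range k, (1 / 2 : ℝ) ^ (k - j) =
          ∑ i ∈ Finset.range k, (1 / 2 : ℝ) ^ (i + 1) := by
        rw [← Finset.sum_range_reflect]
        refine Finset.sum_congr rfl fun i hi => ?_
        have := Finset.mem_range.1 hi
        congr 1
        omega
      rw [h10]
      have h11 : ∀ n : ℕ, ∑ i ∈ Finset.range n, (1 / 2 : ℝ) ^ (i + 1) = 1 - (1 / 2) ^ n := by
        intro n
        induction n with
        | zero => simp
        | succ n ih => rw [Finset.sum_range_succ, ih]; ring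
      rw [h11]
      have : (0 : ℝ) ≤ (1 / 2) ^ k := by positivity
      linarith
    calc lam + ∑ j ∈ Finset.range k, ∫⁻ y, ∫⁻ z, P j y z * tr d (Rk j) (Rk k) y z x ≤
        lam + ∑ j ∈ Finset.range k, ((∫⁻ z, (∫⁻ y, P j y z) * kap z) +
          (ENNReal.ofReal C * ∫⁻ z, (∫⁻ y, P j y z) * gam z) + lam * (1 / 2) ^ (k - j)) := by
          exact add_le_add_right (Finset.sum_le_sum hterm) _
      _ ≤ lam + (lam * 100 + ENNReal.ofReal C * lam + lam * 1) := by
          rw [Finset.sum_add_distrib, Finset.sum_add_distrib]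
          gcongr
      _ = ENNReal.ofReal (102 + C) * lam := by
          rw [ENNReal.ofReal_add (by norm_num) hC0.le]
          have : ENNReal.ofReal 102 = 102 := by norm_num
          rw [this]
          ring
  calc lam * volume {x : Eu d | ∃ k, k < K ∧ ENNReal.ofReal (102 + C) * lam <
      ∫⁻ y, f y * bs d (R * 64 ^ k) (x - y)} ≤ lam * volume (D ∪ Bad) := by
        gcongr
    _ ≤ lam * (volume D + volume Bad) := by
        gcongr
        exact measure_union_le _ _
    _ = lam * volume D + lam * volume Bad := mul_add _ _ _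
    _ ≤ (∫⁻ y, f y) + ENNReal.ofReal (C / 4) * ∫⁻ y, f y := add_le_add hD hBadle
    _ = (1 + ENNReal.ofReal (C / 4)) * ∫⁻ y, f y := by ring
    _ ≤ ENNReal.ofReal (102 + C) * ∫⁻ y, f y := by
        gcongr
        rw [← ENNReal.ofReal_one, ← ENNReal.ofReal_add (by norm_num) (by positivity)]
        exact ENNReal.ofReal_le_ofReal (by linarith)

end Pool.Agent.Helper160.MF
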