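import Mathlib

set_option autoImplicit false

open MeasureTheory ENNReal Metric Set

namespace Pool.Agent.Helper392.MF

abbrev E (n : ℕ) := EuclideanSpace ℝ (Fin n)

lemma vol_ball (n : ℕ) (x : E n) (ρ : ℝ) (hρ : 0 < ρ) :
    volume (ball x ρ) = ENNReal.ofReal (ρ ^ n) * volume (ball (0 : E n) 1) := by
  have := Measure.addHaar_ball_of_pos (volume : Measure (E n)) x hρ
  rwa [finrank_euclideanSpace_fin] at this

lemma v1_ne_zero (n : ℕ) : volume (ball (0 : E n) 1) ≠ 0 :=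
  (measure_ball_pos volume _ one_pos).ne'

lemma v1_ne_top (n : ℕ) : volume (ball (0 : E n) 1) ≠ ∞ := measure_ball_lt_top.ne

/-- weak type bound from the Vitali covering lemma, dimension dependent constant -/
theorem weak_vitali (n : ℕ) (hn : 1 ≤ n) (F : E n → ℝ≥0∞)
    (hFi : ∫⁻ x, F x ≠ ∞) (t : ℝ≥0∞) (ht0 : t ≠ 0) (ht : t ≠ ∞) (A : Set (E n))
    (hA : ∀ x ∈ A, ∃ ρ : ℝ, 0 < ρ ∧ t * volume (ball x ρ) ≤ ∫⁻ y in ball x ρ, F y) :
    volume A ≤ 4 ^ n * (∫⁻ x, F x) / t := by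
  classical
  choose! ρ hρ0 hρ using hA
  set v := volume (ball (0 : E n) 1) with hv
  have hv0 : v ≠ 0 := v1_ne_zero n
  have hvt : v ≠ ∞ := v1_ne_top n
  -- bounded radii
  have hR : ∀ x ∈ A, ρ x ≤ max 1 ((∫⁻ x, F x) / (t * v)).toReal := by
    intro x hx
    by_cases h1 : ρ x ≤ 1
    · exact h1.trans (le_max_left _ _)
    · rw [not_le] at h1
      refine le_trans ?_ (le_max_right _ _)
      have h2 : ENNReal.ofReal (ρ x) ≤ (∫⁻ x, F x) / (t * v) := by
        rw [ENNReal.le_div_iff_mul_le (Or.inl (mul_ne_zero ht0 hv0))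
          (Or.inl (ENNReal.mul_ne_top ht hvt))]
        have h3 : ENNReal.ofReal (ρ x) ≤ ENNReal.ofReal (ρ x ^ n) :=
          ENNReal.ofReal_le_ofReal (le_self_pow₀ h1.le (by omega))
        calc ENNReal.ofReal (ρ x) * (t * v) ≤ ENNReal.ofReal (ρ x ^ n) * (t * v) := by gcongr
          _ = t * volume (ball x (ρ x)) := by
              rw [vol_ball n x _ (hρ0 x hx)]; ring
          _ ≤ ∫⁻ y in ball x (ρ x), F y := hρ x hx
          _ ≤ ∫⁻ y, F y := setLIntegral_le_lintegral _ _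
      have h4 : (∫⁻ x, F x) / (t * v) ≠ ∞ :=
        ENNReal.div_ne_top hFi (mul_ne_zero ht0 hv0)
      exact (ENNReal.ofReal_le_iff_le_toReal h4).1 h2
  obtain ⟨u, huA, hud, hcov⟩ := Vitali.exists_disjoint_subfamily_covering_enlargement_ball A
    (fun x => x) ρ _ hR 4 (by norm_num)
  have huc : u.Countable := by
    refine hud.countable_of_isOpen (fun a _ => isOpen_ball) fun a ha => ?_
    exact ⟨a, mem_ball_self (hρ0 a (huA ha))⟩
  have hsub : A ⊆ ⋃ b ∈ u, ball b (4 * ρ b) := by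
    intro a ha
    obtain ⟨b, hb, hab⟩ := hcov a ha
    exact mem_biUnion hb (hab (mem_ball_self (hρ0 a ha)))
  have h5 : ∀ b ∈ u, volume (ball b (4 * ρ b)) ≤ 4 ^ n / t * ∫⁻ y in ball b (ρ b), F y := by
    intro b hb
    have hb0 := hρ0 b (huA hb)
    rw [vol_ball n b _ (by positivity), mul_pow, ENNReal.ofReal_mul (by positivity), mul_assoc,
      ← vol_ball n b _ hb0]
    have h6 : volume (ball b (ρ b)) ≤ t⁻¹ * ∫⁻ y in ball b (ρ b), F y := by
      rw [← ENNReal.div_eq_inv_mul, ENNReal.le_div_iff_mul_le (Or.inl ht0) (Or.inl ht), mul_comm]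
      exact hρ b (huA hb)
    have h7 : ENNReal.ofReal ((4 : ℝ) ^ n) = 4 ^ n := by
      rw [ENNReal.ofReal_pow (by norm_num)]
      norm_num
    rw [h7, div_eq_mul_inv, mul_assoc]
    gcongr
  calc volume A ≤ volume (⋃ b ∈ u, ball b (4 * ρ b)) := measure_mono hsub
    _ ≤ ∑' b : u, volume (ball (b : E n) (4 * ρ b)) := measure_biUnion_le _ huc _
    _ ≤ ∑' b : u, 4 ^ n / t * ∫⁻ y in ball (b : E n) (ρ b), F y :=
        ENNReal.tsum_le_tsum fun b => h5 b b.2
    _ = 4 ^ n / t * ∑' b : u, ∫⁻ y in ball (b : E n) (ρ b), F y := ENNReal.tsum_mul_left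
    _ = 4 ^ n / t * ∫⁻ y in ⋃ b ∈ u, ball b (ρ b), F y := by
        rw [lintegral_biUnion huc (fun b _ => measurableSet_ball) hud]
    _ ≤ 4 ^ n / t * ∫⁻ y, F y := by
        gcongr
        exact Measure.restrict_le_self
    _ = 4 ^ n * (∫⁻ x, F x) / t := by
        rw [div_eq_mul_inv, div_eq_mul_inv]; ring

end Pool.Agent.Helper392.MF
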